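import Pool.Agent.J4H8.LH.Gam2
import Pool.Agent.W397.HF.Lcx

/-!
# Project LH: automorphic L-functions satisfy the abstract data (`S_AUT`)
-/

set_option autoImplicit false

open Complex Filter Topology Set
open scoped ComplexConjugate

namespace Pool.Agent.J4H8.LH

open H353.E H353.F
open Pool.Agent.J4H34.HF (DR Xi cond_ge LL LL_bound xi_eq cauchy_dec)
open Pool.Agent.J4H1.LH
open Pool.Agent.W169.HF (UD Pf Slow XX sharpX S_LCX)

variable {m : ℕ} {K N : ℝ} {μ : Fin m → ℂ} {α : Fin m → ℕ → ℂ} {ε : ℂ} {Λ : ℂ → ℂ}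

lemma slow_shift {f : ℂ → ℂ} (hf : Slow f) (c : ℂ) : Slow (fun u => f (c + u)) := by
  refine ⟨hf.1.comp ((differentiable_const c).add differentiable_id), fun δ hδ => ?_⟩
  obtain ⟨K, hK, hb⟩ := hf.2 (δ / 2) (by positivity)
  refine ⟨K * Real.exp (δ * ‖c‖ ^ 2), by positivity, fun z => (hb _).trans ?_⟩
  rw [mul_assoc, ← Real.exp_add]
  refine mul_le_mul_of_nonneg_left (Real.exp_le_exp.2 ?_) hK.le
  have h1 := norm_add_le c z
  have h2 : ‖c + z‖ ^ 2 ≤ (‖c‖ + ‖z‖) ^ 2 := pow_le_pow_left₀ (norm_nonneg _) h1 2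
  have h3 : ‖c + z‖ ^ 2 ≤ 2 * ‖c‖ ^ 2 + 2 * ‖z‖ ^ 2 := by nlinarith [sq_nonneg (‖c‖ - ‖z‖)]
  calc δ / 2 * ‖c + z‖ ^ 2 ≤ δ / 2 * (2 * ‖c‖ ^ 2 + 2 * ‖z‖ ^ 2) := by gcongr
    _ = _ := by ring

lemma fT_fe (h : ∀ s, Xi N Λ s = ε * conj (Xi N Λ (1 - conj s))) (T : ℝ) (u : ℂ) :
    fT N Λ T u = ε * conj (fT N Λ T (-conj u)) := by
  unfold fT
  rw [h]
  congr 3
  simp only [map_add, map_mul, Complex.conj_ofReal, Complex.conj_I, map_div₀, map_one, map_ofNat]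
  ring

lemma datT (d : DR K N μ α ε Λ) : DatumT (1 / 2) N μ α ε Λ where
  one_le := d.dat.one_le
  re_le := d.dat.re_le
  norm_le := fun j p hp => by
    rw [← Real.sqrt_eq_rpow]
    exact d.dat.norm_le j p hp
  norm_eq := d.dat.norm_eq
  entire := d.dat.entire
  euler := fun s hs => d.dat.euler s (by linarith)
  fe := d.dat.fe
  bdd := d.dat.bdd

lemma ud_all (m : ℕ) (hm : 1 ≤ m) : ∃ K1 : ℝ, 1000 * m ≤ K1 ∧
    ∀ (K N : ℝ) (μ : Fin m → ℂ) (α : Fin m → ℕ → ℂ) (ε : ℂ) (Λ : ℂ → ℂ), DR K N μ α ε Λ → ∀ T : ℝ,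
      UD K1 (3 / 2) (lT N μ T) (GT N μ T) (fT N Λ T) := by
  have hm' : (1 : ℝ) ≤ m := by exact_mod_cast hm
  obtain ⟨B, hB, HS⟩ := sharpX m hm (θ := 1 / 2) (η := 1 / 2) (by norm_num) le_rfl (by norm_num)
    (by norm_num)
  refine ⟨1000 * m + B, by linarith, fun K N μ α ε Λ d T => ?_⟩
  obtain ⟨S, hslow, hfe, -, -⟩ := HS N μ α ε Λ (datT d)
  have hN := d.dat.one_le
  have hμ := d.dat.re_le
  have hGT := GT_pos hm hN hμ T
  have hℓ := lT_nonneg (μ := μ) hN T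
  have hB0 : 0 < B := by linarith
  have hBe : ∀ x : ℝ, B ≤ Real.exp (B * (1 + x ^ 2)) := fun x => by
    have h1 := Real.add_one_le_exp (B * (1 + x ^ 2))
    nlinarith [sq_nonneg x]
  have hfe' : ∀ u, fT N Λ T u = ε * conj (fT N Λ T (-conj u)) := fT_fe hfe T
  -- the right half plane
  have hup : ∀ u : ℂ, 0 ≤ u.re → ‖fT N Λ T u‖ ≤
      GT N μ T * Real.exp (lT N μ T * max |u.re| (3 / 2) + (1000 * m + B) * (1 + ‖u‖ ^ 2)) := by
    intro u hu
    rw [abs_of_nonneg hu]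
    rcases le_total (3 / 2) u.re with h | h
    · rw [max_eq_left h]
      have h1 := S.hi (1 / 2 + T * I + u) (by rw [half_re]; linarith)
      have h2 := (gT_cmp hm hN hμ T (u := u) (by linarith)).2
      calc ‖fT N Λ T u‖ ≤ B * ‖gT N μ T u‖ := h1
        _ ≤ Real.exp (B * (1 + ‖u‖ ^ 2)) *
            (GT N μ T * Real.exp (lT N μ T * u.re + 90 * m * (1 + ‖u‖ ^ 2))) :=
            mul_le_mul (hBe _) h2 (norm_nonneg _) (Real.exp_pos _).le
        _ = GT N μ T * Real.exp (B * (1 + ‖u‖ ^ 2) +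
            (lT N μ T * u.re + 90 * m * (1 + ‖u‖ ^ 2))) := by
            rw [Real.exp_add (B * (1 + ‖u‖ ^ 2))]; ring
        _ ≤ _ := by
            refine mul_le_mul_of_nonneg_left (Real.exp_le_exp.2 ?_) hGT.le
            have h3 : 90 * m * (1 + ‖u‖ ^ 2) ≤ 1000 * m * (1 + ‖u‖ ^ 2) := by gcongr; norm_num
            linarith
    · rw [max_eq_right h]
      have h1 := S.strip (1 / 2 + T * I + u) (by rw [half_re]; linarith) (by rw [half_re]; linarith)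
      obtain ⟨w, hw⟩ : ∃ w : ℂ, w = ((3 / 2 : ℝ) : ℂ) + (u.im : ℂ) * I := ⟨_, rfl⟩
      have hwre : w.re = 3 / 2 := by rw [hw]; simp
      have hwim : w.im = u.im := by rw [hw]; simp
      have e1 : (((1 + 1 / 2 + 1 / 2 : ℝ) : ℂ) + ((1 / 2 + (T : ℂ) * I + u).im : ℂ) * I) =
          1 / 2 + T * I + w := by
        rw [half_im, hw]
        push_cast
        ring
      rw [e1] at h1
      have h2 := (gT_cmp hm hN hμ T (u := w) (by rw [hwre]; norm_num)).2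
      have hwn : ‖w‖ ^ 2 ≤ 9 / 4 + ‖u‖ ^ 2 := by
        rw [Complex.sq_norm, Complex.sq_norm, Complex.normSq_apply, Complex.normSq_apply, hwre, hwim]
        nlinarith [mul_self_nonneg u.re]
      rw [hwre] at h2
      calc ‖fT N Λ T u‖ ≤ B * ‖gT N μ T w‖ := h1
        _ ≤ Real.exp (B * (1 + ‖u‖ ^ 2)) *
            (GT N μ T * Real.exp (lT N μ T * (3 / 2) + 90 * m * (1 + ‖w‖ ^ 2))) :=
            mul_le_mul (hBe _) h2 (norm_nonneg _) (Real.exp_pos _).le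
        _ = GT N μ T * Real.exp (B * (1 + ‖u‖ ^ 2) +
            (lT N μ T * (3 / 2) + 90 * m * (1 + ‖w‖ ^ 2))) := by
            rw [Real.exp_add (B * (1 + ‖u‖ ^ 2))]; ring
        _ ≤ _ := by
            refine mul_le_mul_of_nonneg_left (Real.exp_le_exp.2 ?_) hGT.le
            have h3 : m * (90 * (1 + ‖w‖ ^ 2)) ≤ m * (1000 * (1 + ‖u‖ ^ 2)) :=
              mul_le_mul_of_nonneg_left (by nlinarith [sq_nonneg ‖u‖]) (by linarith)
            linarith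
  refine
    { slow := slow_shift hslow _
      fe := ⟨ε, d.dat.norm_eq, hfe'⟩
      hG := hGT
      up := fun u => ?_
      lo := fun u hu => ?_ }
  · rcases le_total 0 u.re with h | h
    · exact hup u h
    · have h1 := hup (-conj u) (by simp; linarith)
      have e1 : ‖fT N Λ T u‖ = ‖fT N Λ T (-conj u)‖ := by
        rw [hfe' u, norm_mul, d.dat.norm_eq, one_mul, Complex.norm_conj]
      have e2 : |(-conj u).re| = |u.re| := by simp
      have e3 : ‖-conj u‖ = ‖u‖ := by rw [norm_neg, Complex.norm_conj]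
      rw [e1]
      rwa [e2, e3] at h1
  · have h1 := S.lo (1 / 2 + T * I + u) (by rw [half_re]; linarith)
    have h2 := (gT_cmp hm hN hμ T (u := u) (by linarith)).1
    have h3 : GT N μ T * Real.exp (lT N μ T * u.re - 90 * m * (1 + ‖u‖ ^ 2)) ≤
        Real.exp (B * (1 + ‖u‖ ^ 2)) * ‖fT N Λ T u‖ :=
      (h2.trans h1).trans (mul_le_mul_of_nonneg_right (hBe _) (norm_nonneg _))
    have h4 : GT N μ T * Real.exp (lT N μ T * u.re - 90 * m * (1 + ‖u‖ ^ 2) - B * (1 + ‖u‖ ^ 2)) ≤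
        ‖fT N Λ T u‖ := by
      rw [Real.exp_sub _ (B * (1 + ‖u‖ ^ 2)), mul_div_assoc', div_le_iff₀ (Real.exp_pos _),
        mul_comm ‖_‖]
      exact h3
    refine le_trans ?_ h4
    refine mul_le_mul_of_nonneg_left (Real.exp_le_exp.2 ?_) hGT.le
    have h5 : 90 * m * (1 + ‖u‖ ^ 2) ≤ 1000 * m * (1 + ‖u‖ ^ 2) := by gcongr; norm_num
    linarith

lemma err (A C κ : ℝ) (hA : 0 ≤ A) (hκ : 0 < κ) : ∃ ℓ0 : ℝ, 1 ≤ ℓ0 ∧ ∀ ℓ : ℝ, ℓ0 ≤ ℓ →
    A * Real.sqrt (1 + 2 * ℓ) + C ≤ κ * ℓ := by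
  obtain ⟨a, ha⟩ : ∃ a : ℝ, a = κ / (2 * (A + 1)) := ⟨_, rfl⟩
  have ha0 : 0 < a := by rw [ha]; positivity
  have hAa : A * a ≤ κ / 2 := by
    rw [ha, mul_div_assoc', div_le_div_iff₀ (by positivity) (by norm_num)]
    nlinarith
  refine ⟨max 1 (2 * (κ / 4 + A / (2 * a) + |C|) / κ), le_max_left _ _, fun ℓ hℓ => ?_⟩
  have h1 : 1 ≤ ℓ := (le_max_left _ _).trans hℓ
  have h2 : 2 * (κ / 4 + A / (2 * a) + |C|) / κ ≤ ℓ := (le_max_right _ _).trans hℓ
  rw [div_le_iff₀ hκ] at h2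
  have h3 : Real.sqrt (1 + 2 * ℓ) ≤ a / 2 * (1 + 2 * ℓ) + 1 / (2 * a) := by
    have h4 := Real.sq_sqrt (show (0 : ℝ) ≤ 1 + 2 * ℓ by linarith)
    obtain ⟨y, hy⟩ : ∃ y : ℝ, y = Real.sqrt (1 + 2 * ℓ) := ⟨_, rfl⟩
    rw [← hy] at h4 ⊢
    rw [← h4]
    have h5 : a / 2 * y ^ 2 + 1 / (2 * a) - y = (a * y - 1) ^ 2 / (2 * a) := by
      field_simp
      ring
    have h6 : 0 ≤ (a * y - 1) ^ 2 / (2 * a) := by positivity
    linarith
  have h4 : A * Real.sqrt (1 + 2 * ℓ) ≤ A * (a / 2 * (1 + 2 * ℓ) + 1 / (2 * a)) := by gcongr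
  have h5 : A * (a / 2 * (1 + 2 * ℓ) + 1 / (2 * a)) = (A * a) * ((1 + 2 * ℓ) / 2) + A / (2 * a) := by
    ring
  have h6 : (A * a) * ((1 + 2 * ℓ) / 2) ≤ κ / 2 * ((1 + 2 * ℓ) / 2) := by gcongr
  have h7 := le_abs_self C
  linarith

/-- two-sided bounds to the right of `Re s = 1` -/
lemma two_sided (hm : 1 ≤ m) (d : DR K N μ α ε Λ) {A₀ η₂ : ℝ} (hη : 0 < η₂)
    (hA0 : 0 ≤ A₀) (hA : ∀ (t : ℝ) (s : ℂ), 1 + η₂ ≤ s.re → ‖LL α s‖ ≤
      A₀ * Real.sqrt (1 + Real.log (Pool.Agent.J4H34.HF.cond N μ t)) * (2 : ℝ) ^ (-(s.re - (1 + η₂))))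
    (T : ℝ) {u : ℂ} (hu : 1 / 2 + η₂ ≤ u.re) :
    GT N μ T * Real.exp (lT N μ T * u.re -
      (A₀ * Real.sqrt (1 + 2 * lT N μ T) + 90 * m * (1 + ‖u‖ ^ 2))) ≤ ‖fT N Λ T u‖ ∧
    ‖fT N Λ T u‖ ≤ GT N μ T * Real.exp (lT N μ T * u.re +
      (A₀ * Real.sqrt (1 + 2 * lT N μ T) + 90 * m * (1 + ‖u‖ ^ 2))) := by
  have hN := d.dat.one_le
  have hμ := d.dat.re_le
  have hGT := GT_pos hm hN hμ T
  obtain ⟨c1, c2⟩ := gT_cmp hm hN hμ T (u := u) (by linarith)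
  have hs : 1 + η₂ ≤ (1 / 2 + (T : ℂ) * I + u : ℂ).re := by rw [half_re]; linarith
  have h1 := hA T _ hs
  have h2 : (2 : ℝ) ^ (-((1 / 2 + (T : ℂ) * I + u : ℂ).re - (1 + η₂))) ≤ 1 :=
    Real.rpow_le_one_of_one_le_of_nonpos (by norm_num) (by linarith)
  have hlog : Real.log (Pool.Agent.J4H34.HF.cond N μ T) = 2 * lT N μ T := by unfold lT; ring
  rw [hlog] at h1
  have h3 : ‖LL α (1 / 2 + (T : ℂ) * I + u)‖ ≤ A₀ * Real.sqrt (1 + 2 * lT N μ T) :=
    h1.trans (mul_le_of_le_one_right (by positivity) h2)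
  have h4 := abs_le.1 ((Complex.abs_re_le_norm _).trans h3)
  have e1 : ‖fT N Λ T u‖ = ‖gT N μ T u‖ * Real.exp (LL α (1 / 2 + (T : ℂ) * I + u)).re := by
    unfold fT gT
    rw [(xi_eq hm d).2 _ (by linarith), norm_mul, Complex.norm_exp]
  rw [e1]
  constructor
  · calc GT N μ T * Real.exp (lT N μ T * u.re -
        (A₀ * Real.sqrt (1 + 2 * lT N μ T) + 90 * m * (1 + ‖u‖ ^ 2)))
        = (GT N μ T * Real.exp (lT N μ T * u.re - 90 * m * (1 + ‖u‖ ^ 2))) *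
          Real.exp (-(A₀ * Real.sqrt (1 + 2 * lT N μ T))) := by
          rw [mul_assoc (GT N μ T), ← Real.exp_add]
          congr 2
          ring
      _ ≤ ‖gT N μ T u‖ * Real.exp (LL α (1 / 2 + (T : ℂ) * I + u)).re := by
          gcongr
          exact h4.1
  · calc ‖gT N μ T u‖ * Real.exp (LL α (1 / 2 + (T : ℂ) * I + u)).re
        ≤ (GT N μ T * Real.exp (lT N μ T * u.re + 90 * m * (1 + ‖u‖ ^ 2))) *
          Real.exp (A₀ * Real.sqrt (1 + 2 * lT N μ T)) := by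
          gcongr
          exact h4.2
      _ = _ := by
          rw [mul_assoc (GT N μ T), ← Real.exp_add]
          congr 2
          ring

theorem t_aut : S_AUT := by
  intro m K hm hK
  have hm' : (1 : ℝ) ≤ m := by exact_mod_cast hm
  obtain ⟨K1, hK1, hUD⟩ := ud_all m hm
  refine ⟨K1, fun ρ => 1000 * m + 2 * m / ρ, by linarith, fun N μ α ε Λ d T => ⟨hUD K N μ α ε Λ d T,
    fun u hu => ?_, fun ρ hρ u hu => gT_up hm d.dat.one_le d.dat.re_le T hρ hu⟩, ?_⟩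
  · refine (gT_inv hm d.dat.one_le d.dat.re_le T hu).trans ?_
    have hGT := GT_pos hm d.dat.one_le d.dat.re_le T
    refine mul_le_mul_of_nonneg_left (Real.exp_le_exp.2 ?_) (by positivity)
    have : 1000 * m * (1 + ‖u‖ ^ 2) ≤ K1 * (1 + ‖u‖ ^ 2) := by gcongr
    linarith
  intro κ η R hκ hη hη1 hR
  obtain ⟨A₀, hA0, hLL⟩ := LL_bound hK (η₂ := η / 2) (by positivity) (by linarith)
  obtain ⟨κ1, R', ℓ1, hκ1, hR', hcx⟩ := Pool.Agent.W397.HF.lcx K1 (3 / 2) (1 / 2 + η) κ R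
    (by linarith) (by norm_num) (by norm_num) (by linarith) (by linarith) hκ hR
  have hR'0 : 1 ≤ R' := hR.trans hR'
  obtain ⟨ℓ2, hℓ2, herr⟩ := err (A₀ + 8 * A₀ / η) (90 * m * (1 + (9 / 4 + 2 * R' ^ 2)) +
    (6 * m * (2 * R) + 19 * m)) (min κ κ1) (by positivity) (lt_min hκ hκ1)
  refine ⟨max ℓ1 ℓ2, fun N μ α ε Λ d T hℓ => ?_⟩
  have hN := d.dat.one_le
  have hμ := d.dat.re_le
  have hGT := GT_pos hm hN hμ T
  have hℓ1 : ℓ1 ≤ lT N μ T := (le_max_left _ _).trans hℓ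
  have hℓ2' : ℓ2 ≤ lT N μ T := (le_max_right _ _).trans hℓ
  have he := herr _ hℓ2'
  obtain ⟨ℓ, hℓd⟩ : ∃ ℓ : ℝ, ℓ = lT N μ T := ⟨_, rfl⟩
  have hts := fun (u : ℂ) (hu : 1 / 2 + η / 2 ≤ u.re) => two_sided hm d (by positivity) hA0
    (fun t s hs => hLL m N μ α ε Λ d t s hs) T hu
  have hfe := (Pool.Agent.J4H34.HF.basic hm d.dat).2.1
  rw [← hℓd] at hℓ1 hℓ2' he hts ⊢
  have hℓ10 : 1 ≤ ℓ := hℓ2.trans hℓ2'
  have hℓ0 : 0 < ℓ := by linarith
  obtain ⟨q, hq⟩ : ∃ q : ℝ, q = Real.sqrt (1 + 2 * ℓ) := ⟨_, rfl⟩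
  have hq0 : 0 ≤ q := by rw [hq]; positivity
  rw [← hq] at he
  have hAq : 0 ≤ 8 * A₀ / η * q := by positivity
  have hmin1 : min κ κ1 * ℓ ≤ κ * ℓ := mul_le_mul_of_nonneg_right (min_le_left _ _) hℓ0.le
  have hmin2 : min κ κ1 * ℓ ≤ κ1 * ℓ := mul_le_mul_of_nonneg_right (min_le_right _ _) hℓ0.le
  have hmR : 0 ≤ 6 * m * (2 * R) + 19 * (m : ℝ) := by positivity
  have hA0q : 0 ≤ A₀ * q := by positivity
  have hnsq : ∀ (u : ℂ) (a : ℝ), u.re ^ 2 + u.im ^ 2 ≤ a → A₀ * q + 90 * m * (1 + ‖u‖ ^ 2) ≤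
      A₀ * q + 90 * m * (1 + a) := by
    intro u a ha
    have : ‖u‖ ^ 2 ≤ a := by
      rw [Complex.sq_norm, Complex.normSq_apply]
      linarith
    gcongr
  have hsqb : ∀ (x a : ℝ), |x| ≤ a → x ^ 2 ≤ a ^ 2 := fun x a h => by
    rw [← sq_abs]
    exact pow_le_pow_left₀ (abs_nonneg _) h 2
  have hRR : R ^ 2 ≤ R' ^ 2 := pow_le_pow_left₀ (by linarith) hR' 2
  have hbig : ∀ u : ℂ, u.re ^ 2 + u.im ^ 2 ≤ 9 / 4 + 2 * R' ^ 2 →
      A₀ * q + 90 * m * (1 + ‖u‖ ^ 2) ≤ min κ κ1 * ℓ := fun u hu => by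
    have := hnsq u _ hu
    linarith
  have hR1' : ∀ u : ℂ, |u.re| ≤ R → |u.im| ≤ R → u.re ^ 2 + u.im ^ 2 ≤ 9 / 4 + 2 * R' ^ 2 := by
    intro u h1 h2
    have h3 := hsqb _ _ h1
    have h4 := hsqb _ _ h2
    linarith
  -- the bound to the right
  have hright : ∀ u : ℂ, 1 / 2 + η / 2 ≤ u.re → u.re ^ 2 + u.im ^ 2 ≤ 9 / 4 + 2 * R' ^ 2 →
      GT N μ T * Real.exp (ℓ * u.re - min κ κ1 * ℓ) ≤ ‖fT N Λ T u‖ ∧
      ‖fT N Λ T u‖ ≤ GT N μ T * Real.exp (ℓ * u.re + min κ κ1 * ℓ) := by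
    intro u hu hu2
    obtain ⟨h1, h2⟩ := hts u hu
    rw [← hq] at h1 h2
    have h3 := hbig u hu2
    exact ⟨(mul_le_mul_of_nonneg_left (Real.exp_le_exp.2 (by linarith)) hGT.le).trans h1,
      h2.trans (mul_le_mul_of_nonneg_left (Real.exp_le_exp.2 (by linarith)) hGT.le)⟩
  have hcx' : ∀ u : ℂ, |u.re| ≤ 1 / 2 + η → |u.im| ≤ R →
      ‖fT N Λ T u‖ ≤ GT N μ T * Real.exp (ℓ * (1 / 2 + η) + κ * ℓ) := by
    refine hcx ℓ (GT N μ T) (fT N Λ T) hℓ1 (by rw [hℓd]; exact hUD K N μ α ε Λ d T) ?_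
    intro u hu1 hu2
    have h1 := (hright u (by linarith) (by
      have h3 := hsqb _ _ hu2
      rw [hu1]
      nlinarith)).2
    rw [hu1] at h1
    refine h1.trans (mul_le_mul_of_nonneg_left (Real.exp_le_exp.2 ?_) hGT.le)
    linarith
  refine { low := fun u hu1 hu2 hu3 => ?_, upp := fun u hu1 hu2 => ?_, der := fun u hu1 hu2 hu3 => ?_ }
  · have h1 := (hright u (by linarith) (hR1' u (abs_le.2 ⟨by linarith, hu2⟩) hu3)).1
    refine le_trans (mul_le_mul_of_nonneg_left (Real.exp_le_exp.2 ?_) hGT.le) h1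
    linarith
  · rcases le_total |u.re| (1 / 2 + η) with h | h
    · rw [max_eq_right h]
      exact hcx' u h hu2
    · rw [max_eq_left h]
      have key : ∀ w : ℂ, 1 / 2 + η ≤ w.re → |w.re| ≤ R → |w.im| ≤ R →
          ‖fT N Λ T w‖ ≤ GT N μ T * Real.exp (ℓ * w.re + κ * ℓ) := fun w h1 h2 h3 => by
        refine (hright w (by linarith) (hR1' w h2 h3)).2.trans
          (mul_le_mul_of_nonneg_left (Real.exp_le_exp.2 ?_) hGT.le)
        linarith
      rcases le_total 0 u.re with h0 | h0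
      · rw [abs_of_nonneg h0] at h ⊢
        exact key u h (by rw [abs_of_nonneg h0]; rw [abs_of_nonneg h0] at hu1; exact hu1) hu2
      · have e1 : ‖fT N Λ T u‖ = ‖fT N Λ T (-conj u)‖ := by
          rw [fT_fe hfe T u, norm_mul, d.dat.norm_eq, one_mul, Complex.norm_conj]
        have e2 : (-conj u).re = |u.re| := by
          rw [abs_of_nonpos h0]; simp
        have e3 : |(-conj u).im| = |u.im| := by simp
        have h1 := key (-conj u) (by rw [e2]; exact h) (by rw [e2, abs_abs]; exact hu1)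
          (by rw [e3]; exact hu2)
        rw [e1]
        rwa [e2] at h1
  · -- the logarithmic derivative
    obtain ⟨s, hs⟩ : ∃ s : ℂ, s = 1 / 2 + (T : ℂ) * I + u := ⟨_, rfl⟩
    have hsre : s.re = 1 / 2 + u.re := by rw [hs, half_re]
    have gp := gaf_GP hm hN hμ
    obtain ⟨hLd, hXe⟩ := xi_eq hm d
    have hopen : IsOpen {s : ℂ | 1 < s.re} := isOpen_lt continuous_const continuous_re
    have hs1 : s ∈ {s : ℂ | 1 < s.re} := by
      show 1 < s.re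
      rw [hsre]; linarith
    have hLds : DifferentiableAt ℂ (LL α) s := hLd.differentiableAt (hopen.mem_nhds hs1)
    have hder : HasDerivAt (Xi N Λ) (Xi N Λ s * (gaD N μ s + deriv (LL α) s)) s := by
      have h1 := (gp.der s (by rw [hsre]; linarith)).mul hLds.hasDerivAt.cexp
      have h2 : HasDerivAt (fun z => gaf N μ z * cexp (LL α z))
          (Xi N Λ s * (gaD N μ s + deriv (LL α) s)) s := by
        refine h1.congr_deriv ?_
        rw [hXe s hs1]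
        ring
      refine h2.congr_of_eventuallyEq ?_
      filter_upwards [hopen.mem_nhds hs1] with w hw
      exact hXe w hw
    have hfu : HasDerivAt (fT N Λ T) (Xi N Λ s * (gaD N μ s + deriv (LL α) s)) u := by
      have h1 : HasDerivAt (fun z : ℂ => 1 / 2 + (T : ℂ) * I + z) 1 u := (hasDerivAt_id u).const_add _
      have h2 : HasDerivAt (Xi N Λ) (Xi N Λ s * (gaD N μ s + deriv (LL α) s))
          (1 / 2 + (T : ℂ) * I + u) := by rw [← hs]; exact hder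
      have h3 := HasDerivAt.comp u h2 h1
      rw [mul_one] at h3
      exact h3
    have hne : Xi N Λ s ≠ 0 := by
      rw [hXe s hs1]
      exact mul_ne_zero (gp.ne s (by rw [hsre]; linarith)) (Complex.exp_ne_zero _)
    have hfs : fT N Λ T u = Xi N Λ s := by rw [hs]; rfl
    have e1 : logDeriv (fT N Λ T) u = gaD N μ s + deriv (LL α) s := by
      rw [logDeriv_apply, hfu.deriv, hfs, mul_div_cancel_left₀ _ hne]
    have h1 := gaD_near hm hN hμ T (u := u) (by linarith)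
    rw [← hs, ← hℓd] at h1
    have hun : ‖u‖ ≤ 2 * R := by
      have h2 := Complex.norm_le_abs_re_add_abs_im u
      have h3 : |u.re| ≤ R := abs_le.2 ⟨by linarith, hu2⟩
      linarith
    have hlog : Real.log (Pool.Agent.J4H34.HF.cond N μ T) = 2 * ℓ := by rw [hℓd]; unfold lT; ring
    have h2 : ‖deriv (LL α) s‖ ≤ (2 * (A₀ * q) / (η / 4)) * (2 : ℝ) ^ (-(s.re - (1 + η / 2))) := by
      refine cauchy_dec (σ₁ := 1 + η / 2) (σ₀ := 1 + η / 2) (hLd.mono fun w hw => ?_)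
        (fun w hw => ?_) (by positivity) (by linarith) hA0q (by rw [hsre]; linarith)
      · have hw' : 1 + η / 2 < w.re := hw
        show 1 < w.re
        linarith
      · have h3 := hLL m N μ α ε Λ d T w hw.le
        rw [hlog, ← hq] at h3
        exact h3
    have h3 : (2 : ℝ) ^ (-(s.re - (1 + η / 2))) ≤ 1 :=
      Real.rpow_le_one_of_one_le_of_nonpos (by norm_num) (by rw [hsre]; linarith)
    have h4 : ‖deriv (LL α) s‖ ≤ 8 * A₀ / η * q := by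
      refine h2.trans ((mul_le_of_le_one_right (by positivity) h3).trans (le_of_eq ?_))
      field_simp
      ring
    rw [e1]
    have e2 : gaD N μ s + deriv (LL α) s - (ℓ : ℂ) = (gaD N μ s - (ℓ : ℝ)) + deriv (LL α) s := by ring
    rw [e2]
    refine (norm_add_le _ _).trans ?_
    have h5 : 6 * m * ‖u‖ + 19 * m ≤ 6 * m * (2 * R) + 19 * (m : ℝ) := by gcongr
    have h6 : 0 ≤ 90 * (m : ℝ) * (1 + (9 / 4 + 2 * R' ^ 2)) := by positivity
    linarith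

end Pool.Agent.J4H8.LH
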