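import Pool.Agent.W169.HF.DefsD
import Pool.Agent.W351.HF.TC
import Pool.Agent.H370R2.Local

/-!
# Three circles with few zeros (`S_TCZ` of `W169/HF/DefsD.lean`)
-/

set_option autoImplicit false

open Complex Filter Topology Set Metric

namespace Pool.Agent.J4H8.LH

open Pool.Agent.W169.HF

/-- the multiset of the zeros in a disc -/
lemma ext0 {F : ℂ → ℂ} (hF : Differentiable ℂ F) {c : ℂ} {r R n : ℝ} (hr : 0 < r) (hrR : r < R)
    (hc : F c ≠ 0)
    (hn : ∀ S : Finset ℂ, (∀ z ∈ S, F z = 0 ∧ z ∈ closedBall c r) →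
      ∑ z ∈ S, (analyticOrderNatAt F z : ℝ) ≤ n) :
    ∃ (s : Multiset ℂ) (g : ℂ → ℂ), (∀ z ∈ s, z ∈ closedBall c r ∧ F z = 0) ∧
      AnalyticOnNhd ℂ g (closedBall c R) ∧ (∀ z, F z = H370.Loc.Pf s z * g z) ∧
      (∀ z ∈ closedBall c r, g z ≠ 0) ∧ (Multiset.card s : ℝ) ≤ n := by
  classical
  have hFa : AnalyticOnNhd ℂ F (closedBall c R) := fun z _ => hF.analyticAt z
  obtain ⟨B, hB⟩ := (isCompact_closedBall c R).exists_bound_of_continuousOn hF.continuous.continuousOn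
  obtain ⟨s, g, hs1, hg, hfg, hg0, -⟩ := H370.Loc.extract (f := F) (c := c) (M := max 1 B) hr hrR
    (le_max_left _ _) hFa hc (fun z hz => (hB z hz).trans (le_max_right _ _))
  refine ⟨s, g, hs1, hg, hfg, hg0, ?_⟩
  refine le_trans ?_ (hn s.toFinset fun z hz => (hs1 z (Multiset.mem_toFinset.1 hz)).symm)
  have h1 : Multiset.card s = ∑ z ∈ s.toFinset, s.count z := (Multiset.toFinset_sum_count_eq s).symm
  rw [h1]
  push_cast
  refine Finset.sum_le_sum fun z hz => ?_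
  have hz0 := hs1 z (Multiset.mem_toFinset.1 hz)
  have hz' : z ∈ closedBall c R := closedBall_subset_closedBall hrR.le hz0.1
  have hKp : IsPreconnected (closedBall c R) := (convex_closedBall c _).isPreconnected
  exact_mod_cast H370.Loc.count_le_mult (hFa z hz')
    (H370.Loc.order_ne_top hKp hFa (mem_closedBall_self (by linarith)) hc hz') (hg z hz') hfg

theorem t_tcz : S_TCZ := by
  intro A b ρ κ R1 hA hb1 hb2 hρ0 hρ1 hκ hR1
  obtain ⟨M, hM⟩ : ∃ M : ℝ, M = b + 2 := ⟨_, rfl⟩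
  have hM2 : 5 / 2 ≤ M := by rw [hM]; linarith
  have hM0 : 0 < M := by linarith
  obtain ⟨r2, hr2⟩ : ∃ r : ℝ, r = M - ρ := ⟨_, rfl⟩
  obtain ⟨r4, hr4⟩ : ∃ r : ℝ, r = M - ρ / 2 := ⟨_, rfl⟩
  have hr21 : 1 < r2 := by rw [hr2]; linarith
  have hr24 : r2 < r4 := by rw [hr2, hr4]; linarith
  have hr4M : r4 < M := by rw [hr4]; linarith
  have hr40 : 0 < r4 := by linarith
  obtain ⟨δ, hδ0, hδ⟩ := Pool.Agent.W351.HF.tc0 r2 r4 (A + 1) (κ / 2) hr21 hr24 (by linarith)
    (by linarith)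
  obtain ⟨L, hL⟩ : ∃ L : ℝ, L = Real.log (2 * M / ρ) := ⟨_, rfl⟩
  have h2M : 2 * M ≤ 2 * M / ρ := by
    rw [le_div_iff₀ hρ0]
    nlinarith
  have hLM2 : Real.log (2 * M) ≤ L := by rw [hL]; exact Real.log_le_log (by linarith) h2M
  have hLM1 : Real.log M ≤ L := (Real.log_le_log hM0 (by linarith)).trans hLM2
  have hlM0 : 0 ≤ Real.log M := Real.log_nonneg (by linarith)
  have hL0 : 0 ≤ L := hlM0.trans hLM1
  obtain ⟨c0, hc0⟩ : ∃ c : ℝ, c = min (min δ 1) (κ / 2) := ⟨_, rfl⟩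
  have hc00 : 0 < c0 := by rw [hc0]; exact lt_min (lt_min hδ0 one_pos) (by linarith)
  have hc0δ : c0 ≤ δ := by rw [hc0]; exact (min_le_left _ _).trans (min_le_left _ _)
  have hc01 : c0 ≤ 1 := by rw [hc0]; exact (min_le_left _ _).trans (min_le_right _ _)
  have hc0κ : c0 ≤ κ / 2 := by rw [hc0]; exact min_le_right _ _
  obtain ⟨κ1, hκ1⟩ : ∃ k : ℝ, k = min (ρ / 4) (c0 / (2 + 2 * L)) := ⟨_, rfl⟩
  have hκ10 : 0 < κ1 := by rw [hκ1]; exact lt_min (by linarith) (by positivity)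
  have hκ1ρ : κ1 ≤ ρ / 4 := by rw [hκ1]; exact min_le_left _ _
  have hκ1c : κ1 * (2 + 2 * L) ≤ c0 := by
    rw [← le_div_iff₀ (by positivity), hκ1]
    exact min_le_right _ _
  have hκ1c' : κ1 * 2 + 2 * (κ1 * L) ≤ c0 := by linarith
  have hκ1L : 0 ≤ κ1 * L := by positivity
  have hκ1κ : κ1 ≤ κ := by linarith
  refine ⟨κ1, R1 + 2 * M + 1, hκ10, by linarith, ?_⟩
  intro ℓ H F hℓ hH hF h1 h2 h3 u hu1 hu2 hu3
  rcases le_or_gt b u.re with hub | hub
  · refine (h2 u hub (by linarith) (by linarith)).2.trans ?_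
    gcongr
  -- the disc
  obtain ⟨c, hc⟩ : ∃ c : ℂ, c = (M : ℂ) + I * (u.im : ℂ) := ⟨_, rfl⟩
  have hcre : c.re = M := by rw [hc]; simp
  have hcim : c.im = u.im := by rw [hc]; simp
  have hreg : ∀ (r : ℝ) (z : ℂ), r ≤ M → z ∈ closedBall c r → M - r ≤ z.re ∧
      z.re ≤ R1 + 2 * M + 1 ∧ |z.im| ≤ R1 + 2 * M + 1 := by
    intro r z hr hz
    rw [mem_closedBall, dist_eq_norm] at hz
    have e1 := (abs_le.1 ((Complex.abs_re_le_norm (z - c)).trans hz))
    have e2 := (Complex.abs_im_le_norm (z - c)).trans hz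
    rw [Complex.sub_re, hcre] at e1
    rw [Complex.sub_im, hcim] at e2
    refine ⟨by linarith [e1.1], by linarith [e1.2], ?_⟩
    have e3 : |z.im| ≤ |z.im - u.im| + |u.im| := by
      calc |z.im| = |(z.im - u.im) + u.im| := by ring_nf
        _ ≤ _ := abs_add_le _ _
    linarith
  have hcc := hreg 0 c hM0.le (mem_closedBall_self le_rfl)
  have hFc := h2 c (by rw [hcre]; linarith) hcc.2.1 hcc.2.2
  rw [hcre] at hFc
  have hFc0 : F c ≠ 0 := by
    intro h0
    rw [h0, norm_zero] at hFc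
    have : 0 < H * Real.exp (ℓ * M - κ1 * ℓ) := by positivity
    linarith [hFc.1]
  obtain ⟨s, g, hs1, hg, hfg, hg0, hk⟩ := ext0 hF hr40 hr4M hFc0 (n := κ1 * ℓ) (by
    intro S hS
    refine h3 S fun z hz => ⟨(hS z hz).1, ?_⟩
    have := hreg r4 z hr4M.le (hS z hz).2
    refine ⟨?_, this.2⟩
    have e1 := this.1
    rw [hr4] at e1
    linarith)
  obtain ⟨k, hkd⟩ : ∃ k : ℕ, k = Multiset.card s := ⟨_, rfl⟩
  rw [← hkd] at hk
  have hpow : ∀ x : ℝ, 1 ≤ x → Real.log x ≤ L → x ^ k ≤ Real.exp (κ1 * L * ℓ) := by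
    intro x hx hxL
    rw [← Real.rpow_natCast, Real.rpow_def_of_pos (by linarith)]
    apply Real.exp_le_exp.2
    calc Real.log x * k ≤ L * (κ1 * ℓ) :=
          mul_le_mul hxL hk (by positivity) hL0
      _ = κ1 * L * ℓ := by ring
  -- distances
  have hdist : ∀ z ∈ s, 2 ≤ ‖z - c‖ ∧ ‖z - c‖ ≤ r4 := by
    intro z hz
    obtain ⟨e1, e2⟩ := hs1 z hz
    rw [mem_closedBall, dist_eq_norm] at e1
    refine ⟨?_, e1⟩
    by_contra hcon
    push Not at hcon
    have e3 := hreg ‖z - c‖ z (by linarith) (by rw [mem_closedBall, dist_eq_norm])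
    have e4 := (h2 z (by linarith [e3.1]) e3.2.1 e3.2.2).1
    rw [e2, norm_zero] at e4
    have : 0 < H * Real.exp (ℓ * z.re - κ1 * ℓ) := by positivity
    linarith
  have hP1 : ∀ z ∈ sphere c M, (ρ / 2) ^ k ≤ ‖H370.Loc.Pf s z‖ := by
    intro z hz
    rw [hkd]
    refine H370.Loc.Pf_norm_ge (by linarith) fun w hw => ?_
    have e1 := (hdist w hw).2
    rw [mem_sphere, dist_eq_norm] at hz
    have e2 : ‖z - c‖ ≤ ‖z - w‖ + ‖w - c‖ := by
      calc ‖z - c‖ = ‖(z - w) + (w - c)‖ := by congr 1; ring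
        _ ≤ _ := norm_add_le _ _
    rw [hr4] at e1
    linarith
  have hP2 : ‖H370.Loc.Pf s c‖ ≤ M ^ k := by
    rw [hkd]
    refine H370.Loc.Pf_norm_le fun w hw => ?_
    rw [norm_sub_rev]
    linarith [(hdist w hw).2]
  have hP2' : 1 ≤ ‖H370.Loc.Pf s c‖ := by
    have := H370.Loc.Pf_norm_ge (s := s) (z := c) (a := 1) zero_le_one fun w hw => by
      rw [norm_sub_rev]
      linarith [(hdist w hw).1]
    rwa [one_pow] at this
  have hP3 : ∀ z ∈ ball c 1, 1 ≤ ‖H370.Loc.Pf s z‖ := by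
    intro z hz
    rw [mem_ball, dist_eq_norm] at hz
    have := H370.Loc.Pf_norm_ge (s := s) (z := z) (a := 1) zero_le_one fun w hw => by
      have e1 := (hdist w hw).1
      have e2 : ‖w - c‖ ≤ ‖z - w‖ + ‖z - c‖ := by
        calc ‖w - c‖ = ‖(z - c) - (z - w)‖ := by congr 1; ring
          _ ≤ ‖z - c‖ + ‖z - w‖ := norm_sub_le _ _
          _ = _ := add_comm _ _
      linarith
    rwa [one_pow] at this
  have hP4 : ∀ z ∈ closedBall c M, ‖H370.Loc.Pf s z‖ ≤ (2 * M) ^ k := by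
    intro z hz
    rw [mem_closedBall, dist_eq_norm] at hz
    rw [hkd]
    refine H370.Loc.Pf_norm_le fun w hw => ?_
    have e1 := (hdist w hw).2
    have e2 : ‖z - w‖ ≤ ‖z - c‖ + ‖w - c‖ := by
      calc ‖z - w‖ = ‖(z - c) - (w - c)‖ := by congr 1; ring
        _ ≤ _ := norm_sub_le _ _
    linarith
  -- the centre
  have hgc0 : g c ≠ 0 := hg0 c (mem_closedBall_self hr40.le)
  have hFPg : ‖F c‖ = ‖H370.Loc.Pf s c‖ * ‖g c‖ := by rw [hfg c, norm_mul]
  have hgc1 : H * Real.exp (ℓ * M - κ1 * ℓ - κ1 * L * ℓ) ≤ ‖g c‖ := by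
    have e1 : ‖F c‖ ≤ Real.exp (κ1 * L * ℓ) * ‖g c‖ := by
      rw [hFPg]
      gcongr
      exact hP2.trans (hpow M (by linarith) hLM1)
    have e2 := hFc.1.trans e1
    have e3 : H * Real.exp (ℓ * M - κ1 * ℓ - κ1 * L * ℓ) =
        (H * Real.exp (ℓ * M - κ1 * ℓ)) / Real.exp (κ1 * L * ℓ) := by
      rw [Real.exp_sub (ℓ * M - κ1 * ℓ), mul_div_assoc]
    rw [e3, div_le_iff₀ (Real.exp_pos _), mul_comm ‖g c‖]
    exact e2
  have hgc2 : ‖g c‖ ≤ H * Real.exp (ℓ * M + κ1 * ℓ) := by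
    refine le_trans ?_ hFc.2
    rw [hFPg]
    exact le_mul_of_one_le_left (norm_nonneg _) hP2'
  -- the bound in the large ball
  obtain ⟨G, hG⟩ : ∃ G : ℂ → ℂ, G = fun z => g z * cexp (-(ℓ * (z - c))) := ⟨_, rfl⟩
  have hGn : ∀ z, ‖G z‖ = ‖g z‖ * Real.exp (-(ℓ * (z.re - M))) := by
    intro z
    rw [hG]
    simp only []
    rw [norm_mul, Complex.norm_exp, Complex.neg_re, Complex.re_ofReal_mul, Complex.sub_re, hcre]
  have hGB : ∀ z ∈ closedBall c M, ‖G z‖ ≤ H * Real.exp (ℓ * M + A * ℓ) * (2 / ρ) ^ k := by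
    intro z hz
    have hcl : closedBall c M = closure (ball c M) := (closure_ball c (by linarith)).symm
    refine Complex.norm_le_of_forall_mem_frontier_norm_le (U := ball c M) isBounded_ball
      ?_ ?_ (by rw [← hcl]; exact hz)
    · apply DifferentiableOn.diffContOnCl
      rw [← hcl, hG]
      exact hg.differentiableOn.mul (by fun_prop)
    · intro w hw
      rw [frontier_ball _ (by linarith)] at hw
      have e0 := hreg M w le_rfl (sphere_subset_closedBall hw)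
      rw [sub_self] at e0
      have e1 := h1 w e0.1 e0.2.1 e0.2.2
      rw [hfg w, norm_mul] at e1
      have e2 := hP1 w hw
      have e3 : (ρ / 2) ^ k * ‖g w‖ ≤ H * Real.exp (ℓ * w.re + A * ℓ) := le_trans (by gcongr) e1
      have e4 : ‖g w‖ ≤ H * Real.exp (ℓ * w.re + A * ℓ) * (2 / ρ) ^ k := by
        rw [← inv_div ρ 2, inv_pow, ← div_eq_mul_inv, le_div_iff₀ (by positivity)]
        linarith
      rw [hGn]
      calc ‖g w‖ * Real.exp (-(ℓ * (w.re - M))) ≤
            H * Real.exp (ℓ * w.re + A * ℓ) * (2 / ρ) ^ k * Real.exp (-(ℓ * (w.re - M))) := by gcongr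
        _ = H * (Real.exp (ℓ * w.re + A * ℓ) * Real.exp (-(ℓ * (w.re - M)))) * (2 / ρ) ^ k := by ring
        _ = _ := by
            rw [← Real.exp_add]
            congr 3
            ring
  have hpρ : (2 / ρ) ^ k ≤ Real.exp (κ1 * L * ℓ) := by
    have e : 2 / ρ ≤ 2 * M / ρ := by gcongr; linarith
    have e2 : 1 ≤ 2 / ρ := by rw [le_div_iff₀ hρ0]; linarith
    refine hpow _ e2 ?_
    rw [hL]
    exact Real.log_le_log (by positivity) e
  -- the logarithm
  obtain ⟨m, hm, hm0, hmF⟩ := Pool.Agent.W351.HF.exlog (k := fun z => g (c + z) / (g c * cexp (ℓ * z)))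
    hr40
    (by
      intro z hz
      have hz' : c + z ∈ closedBall c M := by
        rw [mem_ball_zero_iff] at hz
        rw [mem_closedBall, dist_eq_norm, add_sub_cancel_left]
        linarith
      have hgz : DifferentiableAt ℂ (fun z : ℂ => g (c + z)) z := by
        have e1 := (hg _ hz').differentiableAt
        exact DifferentiableAt.comp (g := g) (f := fun y : ℂ => c + y) z e1 (by fun_prop)
      apply DifferentiableAt.differentiableWithinAt
      apply DifferentiableAt.div hgz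
      · fun_prop
      · exact mul_ne_zero hgc0 (Complex.exp_ne_zero _))
    (fun z hz => div_ne_zero (hg0 _ (by
        rw [mem_ball_zero_iff] at hz
        rw [mem_closedBall, dist_eq_norm, add_sub_cancel_left]
        exact hz.le)) (mul_ne_zero hgc0 (Complex.exp_ne_zero _)))
    (by simp [hgc0])
  have hfm : ∀ z ∈ ball (0 : ℂ) r4, g (c + z) = g c * cexp (ℓ * z) * cexp (m z) := by
    intro z hz
    rw [← hmF z hz]
    have := Complex.exp_ne_zero ((ℓ : ℂ) * z)
    field_simp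
  have hnm : ∀ z ∈ ball (0 : ℂ) r4, ‖g (c + z)‖ = ‖g c‖ * Real.exp (ℓ * z.re + (m z).re) := by
    intro z hz
    rw [hfm z hz, norm_mul, norm_mul, Complex.norm_exp, Complex.norm_exp,
      Complex.re_ofReal_mul, Real.exp_add, mul_assoc]
  have hmre : ∀ z ∈ ball (0 : ℂ) r4, ∀ a : ℝ,
      ‖g (c + z)‖ ≤ H * Real.exp (ℓ * (M + z.re) + a * ℓ) →
        (m z).re ≤ (a + κ1 + κ1 * L) * ℓ := by
    intro z hz a ha
    rw [hnm z hz] at ha
    have e1 : H * Real.exp (ℓ * M - κ1 * ℓ - κ1 * L * ℓ) * Real.exp (ℓ * z.re + (m z).re) ≤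
        H * Real.exp (ℓ * (M + z.re) + a * ℓ) :=
      (mul_le_mul_of_nonneg_right hgc1 (Real.exp_pos _).le).trans ha
    rw [mul_assoc, ← Real.exp_add] at e1
    have e2 := le_of_mul_le_mul_left e1 hH
    rw [Real.exp_le_exp] at e2
    linarith
  have hmA : ∀ z ∈ ball (0 : ℂ) r4, (m z).re ≤ (A + 1) * ℓ := by
    intro z hz
    have hz' : c + z ∈ closedBall c M := by
      rw [mem_ball_zero_iff] at hz
      rw [mem_closedBall, dist_eq_norm, add_sub_cancel_left]
      linarith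
    have e1 := hGB (c + z) hz'
    rw [hGn, Complex.add_re, hcre] at e1
    have e2 : ‖g (c + z)‖ ≤ H * Real.exp (ℓ * (M + z.re) + (A + κ1 * L) * ℓ) := by
      have e3 : ‖g (c + z)‖ = ‖g (c + z)‖ * Real.exp (-(ℓ * (M + z.re - M))) *
          Real.exp (ℓ * (M + z.re - M)) := by
        rw [mul_assoc, ← Real.exp_add, neg_add_cancel, Real.exp_zero, mul_one]
      rw [e3]
      calc ‖g (c + z)‖ * Real.exp (-(ℓ * (M + z.re - M))) * Real.exp (ℓ * (M + z.re - M)) ≤
            (H * Real.exp (ℓ * M + A * ℓ) * Real.exp (κ1 * L * ℓ)) *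
              Real.exp (ℓ * (M + z.re - M)) := by
            refine mul_le_mul_of_nonneg_right (e1.trans ?_) (Real.exp_pos _).le
            gcongr
        _ = H * (Real.exp (ℓ * M + A * ℓ) * Real.exp (κ1 * L * ℓ) *
              Real.exp (ℓ * (M + z.re - M))) := by ring
        _ = _ := by
            rw [← Real.exp_add, ← Real.exp_add]
            congr 2
            ring
    refine (hmre z hz _ e2).trans ?_
    refine mul_le_mul_of_nonneg_right ?_ hℓ.le
    linarith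
  have hmδ : ∀ z ∈ ball (0 : ℂ) 1, (m z).re ≤ δ * ℓ := by
    intro z hz
    have hz4 : z ∈ ball (0 : ℂ) r4 := ball_subset_ball (by linarith) hz
    have hz1 : c + z ∈ ball c 1 := by
      rw [mem_ball_zero_iff] at hz
      rw [mem_ball, dist_eq_norm, add_sub_cancel_left]
      exact hz
    have e0 := hreg 1 (c + z) (by linarith) (ball_subset_closedBall hz1)
    have e1 := (h2 (c + z) (by linarith [e0.1]) e0.2.1 e0.2.2).2
    have e2 : ‖g (c + z)‖ ≤ H * Real.exp (ℓ * (M + z.re) + κ1 * ℓ) := by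
      rw [Complex.add_re, hcre] at e1
      refine le_trans ?_ e1
      rw [hfg (c + z), norm_mul]
      exact le_mul_of_one_le_left (norm_nonneg _) (hP3 _ hz1)
    refine (hmre z hz4 _ e2).trans ?_
    refine mul_le_mul_of_nonneg_right ?_ hℓ.le
    linarith
  have hfin := hδ (fun z => m z / ℓ) (hm.div_const _) (by rw [hm0, zero_div]) (by
    intro z hz
    rw [Complex.div_ofReal_re, div_le_iff₀ hℓ]
    exact hmA z hz) (by
    intro z hz
    rw [Complex.div_ofReal_re, div_le_iff₀ hℓ]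
    exact hmδ z hz)
  -- the conclusion
  obtain ⟨z0, hz0d⟩ : ∃ z0 : ℂ, z0 = ((u.re - M : ℝ) : ℂ) := ⟨_, rfl⟩
  have hz0 : u = c + z0 := by
    rw [hc, hz0d]
    apply Complex.ext <;> simp
  have hz0n : ‖z0‖ = M - u.re := by
    rw [hz0d, Complex.norm_real, Real.norm_eq_abs, abs_of_nonpos (by linarith)]; ring
  have hz0re : z0.re = u.re - M := by rw [hz0d, Complex.ofReal_re]
  have hz0b : z0 ∈ ball (0 : ℂ) r4 := by
    rw [mem_ball_zero_iff, hz0n, hr4]; linarith
  have huM : u ∈ closedBall c M := by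
    rw [hz0, mem_closedBall, dist_eq_norm, add_sub_cancel_left, hz0n]
    linarith
  have hmn : (m z0).re ≤ κ / 2 * ℓ := by
    have e1 := hfin z0 (by rw [hz0n, hr2]; linarith)
    rw [norm_div, Complex.norm_real, Real.norm_eq_abs, abs_of_pos hℓ, div_le_iff₀ hℓ] at e1
    exact (Complex.re_le_norm _).trans e1
  have hgu : ‖g u‖ ≤ H * Real.exp (ℓ * u.re + κ1 * ℓ + κ / 2 * ℓ) := by
    rw [hz0, hnm z0 hz0b, hz0re]
    calc ‖g c‖ * Real.exp (ℓ * (u.re - M) + (m z0).re) ≤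
          H * Real.exp (ℓ * M + κ1 * ℓ) * Real.exp (ℓ * (u.re - M) + κ / 2 * ℓ) := by gcongr
      _ = H * (Real.exp (ℓ * M + κ1 * ℓ) * Real.exp (ℓ * (u.re - M) + κ / 2 * ℓ)) := by ring
      _ = _ := by
          rw [← Real.exp_add]
          congr 2
          rw [Complex.add_re, hcre, hz0re]
          ring
  rw [hfg u, norm_mul]
  calc ‖H370.Loc.Pf s u‖ * ‖g u‖ ≤
        Real.exp (κ1 * L * ℓ) * (H * Real.exp (ℓ * u.re + κ1 * ℓ + κ / 2 * ℓ)) := by
        gcongr
        exact (hP4 u huM).trans (hpow _ (by linarith) hLM2)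
    _ = H * (Real.exp (κ1 * L * ℓ) * Real.exp (ℓ * u.re + κ1 * ℓ + κ / 2 * ℓ)) := by ring
    _ ≤ _ := by
        rw [← Real.exp_add]
        refine mul_le_mul_of_nonneg_left (Real.exp_le_exp.2 ?_) hH.le
        have e5 : (κ1 * L + κ1) * ℓ ≤ κ / 2 * ℓ := by
          refine mul_le_mul_of_nonneg_right ?_ hℓ.le
          linarith
        linarith

end Pool.Agent.J4H8.LH
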