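import Pool.Agent.J4H1.LH.Stm
import Pool.Agent.W169.HF.Aut1

/-!
# Project LH: the gamma factor seen from the height `T`
-/

set_option autoImplicit false

open Complex Filter Topology Set
open scoped ComplexConjugate

namespace Pool.Agent.J4H8.LH

open H353.E H353.F
open Pool.Agent.J4H34.HF (DR Xi cond_ge)
open Pool.Agent.J4H1.LH

variable {m : ℕ} {N : ℝ} {μ : Fin m → ℂ}

lemma half_re (T : ℝ) (u : ℂ) : (1 / 2 + (T : ℂ) * I + u : ℂ).re = 1 / 2 + u.re := by simp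

lemma half_im (T : ℝ) (u : ℂ) : (1 / 2 + (T : ℂ) * I + u : ℂ).im = T + u.im := by simp

lemma gaD_near (hm : 1 ≤ m) (hN : 1 ≤ N) (hμ : ∀ j, (μ j).re ≤ 1 / 2) (T : ℝ) {u : ℂ}
    (hu : 1 / 2 ≤ u.re) :
    ‖gaD N μ (1 / 2 + T * I + u) - (lT N μ T : ℝ)‖ ≤ 6 * m * ‖u‖ + 19 * m := by
  have hm' : (1 : ℝ) ≤ m := by exact_mod_cast hm
  have gp := gaf_GP hm hN hμ
  have h1 := gp.lipD (ρ := 1) le_rfl (s := 1 / 2 + T * I + u) (t := 3 / 2 + T * I)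
    (by rw [half_re]; linarith) (by simp; norm_num)
  rw [div_one] at h1
  have e1 : (1 / 2 + (T : ℂ) * I + u) - (3 / 2 + T * I) = u - 1 := by ring
  rw [e1] at h1
  have h2 := gp.im (3 / 2 + T * I) (by simp; norm_num)
  have h3 := Pool.Agent.W169.HF.gaD_re_ge hN hμ T
  have h4 := gaD_re_le hN hμ T
  have e2 : 1 / 2 * Real.log (N * ∏ j, (1 + ‖(T : ℂ) * I - μ j‖)) = lT N μ T := by
    unfold lT Pool.Agent.J4H34.HF.cond
    ring
  rw [e2] at h3 h4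
  have h5 : ‖gaD N μ (3 / 2 + T * I) - (lT N μ T : ℝ)‖ ≤ 7 * m + 6 * m := by
    refine (Complex.norm_le_abs_re_add_abs_im _).trans (add_le_add ?_ ?_)
    · rw [sub_re, ofReal_re, abs_le]
      constructor
      · linarith
      · linarith
    · rw [sub_im, ofReal_im, sub_zero]
      exact h2
  have h6 : ‖u - 1‖ ≤ ‖u‖ + 1 := by
    refine (norm_sub_le _ _).trans ?_
    rw [norm_one]
  have h7 : 6 * (m : ℝ) * ‖u - 1‖ ≤ 6 * m * (‖u‖ + 1) := by gcongr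
  calc ‖gaD N μ (1 / 2 + T * I + u) - (lT N μ T : ℝ)‖
      = ‖(gaD N μ (1 / 2 + T * I + u) - gaD N μ (3 / 2 + T * I)) +
          (gaD N μ (3 / 2 + T * I) - (lT N μ T : ℝ))‖ := by congr 1; ring
    _ ≤ _ := norm_add_le _ _
    _ ≤ _ := by linarith

lemma sq_le (x : ℝ) : x ≤ (1 + x ^ 2) / 2 := by nlinarith [sq_nonneg (x - 1)]

/-- the gamma factor to the right of `Re s = 1` -/
lemma gT_cmp (hm : 1 ≤ m) (hN : 1 ≤ N) (hμ : ∀ j, (μ j).re ≤ 1 / 2) (T : ℝ) {u : ℂ}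
    (hu : 1 / 2 ≤ u.re) :
    GT N μ T * Real.exp (lT N μ T * u.re - 90 * m * (1 + ‖u‖ ^ 2)) ≤ ‖gT N μ T u‖ ∧
    ‖gT N μ T u‖ ≤ GT N μ T * Real.exp (lT N μ T * u.re + 90 * m * (1 + ‖u‖ ^ 2)) := by
  have hm' : (1 : ℝ) ≤ m := by exact_mod_cast hm
  have gp := gaf_GP hm hN hμ
  obtain ⟨ℓ, hℓ⟩ : ∃ ℓ : ℝ, ℓ = lT N μ T := ⟨_, rfl⟩
  obtain ⟨x, hx⟩ : ∃ x : ℝ, x = ‖u‖ := ⟨_, rfl⟩
  have hx0 : 0 ≤ x := by rw [hx]; exact norm_nonneg _
  have hK : (6 * m * (2 + x) + 19 * m) * (x + 2) ≤ 90 * m * (1 + x ^ 2) := by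
    have h1 := sq_le x
    have h2 : (6 * (2 + x) + 19) * (x + 2) ≤ 90 * (1 + x ^ 2) := by nlinarith
    calc (6 * m * (2 + x) + 19 * m) * (x + 2) = m * ((6 * (2 + x) + 19) * (x + 2)) := by ring
      _ ≤ m * (90 * (1 + x ^ 2)) := by gcongr
      _ = _ := by ring
  have hseg : ∀ w : ℂ, 1 / 2 ≤ w.re → ‖w‖ ≤ 2 + x →
      ‖gaD N μ (1 / 2 + T * I + w) - (ℓ : ℝ)‖ ≤ 6 * m * (2 + x) + 19 * m := by
    intro w hw1 hw2
    have := gaD_near hm hN hμ T hw1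
    rw [← hℓ] at this
    refine this.trans ?_
    gcongr
  have hv : ‖u - 2‖ ≤ x + 2 := by
    refine (norm_sub_le _ _).trans ?_
    rw [hx]; norm_num
  have e2 : (2 : ℂ).re = 2 := by norm_num
  have hn2 : ‖(2 : ℂ)‖ = 2 := by norm_num
  have hp : ∀ t ∈ Icc (0 : ℝ) 1, ∀ a b : ℂ, 1 / 2 ≤ a.re → 1 / 2 ≤ b.re → ‖a‖ ≤ 2 + x → ‖b‖ ≤ 2 + x →
      1 / 2 ≤ (a + t * (b - a)).re ∧ ‖a + t * (b - a)‖ ≤ 2 + x := by
    intro t ht a b ha hb hna hnb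
    constructor
    · rw [add_re, Complex.re_ofReal_mul, sub_re]
      nlinarith [ht.1, ht.2]
    · have e : a + t * (b - a) = ((1 - t : ℝ) : ℂ) * a + (t : ℂ) * b := by push_cast; ring
      rw [e]
      refine (norm_add_le _ _).trans ?_
      rw [norm_mul, norm_mul, Complex.norm_real, Complex.norm_real, Real.norm_eq_abs,
        Real.norm_eq_abs, abs_of_nonneg (by linarith [ht.2] : (0 : ℝ) ≤ 1 - t), abs_of_nonneg ht.1]
      nlinarith [ht.1, ht.2]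
  have hnu : ‖u‖ ≤ 2 + x := by rw [← hx]; linarith
  have hn22 : ‖(2 : ℂ)‖ ≤ 2 + x := by rw [hn2]; linarith
  have hGT : GT N μ T = ‖gaf N μ (1 / 2 + T * I + 2)‖ * Real.exp (-(2 * ℓ)) := by
    rw [hℓ]; rfl
  have hgu : ‖gT N μ T u‖ = ‖gaf N μ (1 / 2 + T * I + u)‖ := rfl
  -- up
  have h1 := gam_move gp (s := 1 / 2 + T * I + 2) (v := u - 2) (ℓ := ℓ)
    (K := 6 * m * (2 + x) + 19 * m) (by rw [half_re]; norm_num) (by
      have : (1 / 2 + (T : ℂ) * I + 2 + (u - 2)) = 1 / 2 + T * I + u := by ring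
      rw [this, half_re]; linarith) (fun t ht => by
      have e : (1 / 2 + (T : ℂ) * I + 2 + t * (u - 2)) = 1 / 2 + T * I + (2 + t * (u - 2)) := by ring
      rw [e]
      obtain ⟨p1, p2⟩ := hp t ht 2 u (by rw [e2]; norm_num) hu hn22 hnu
      exact hseg _ p1 p2)
  have h2 := gam_move gp (s := 1 / 2 + T * I + u) (v := 2 - u) (ℓ := ℓ)
    (K := 6 * m * (2 + x) + 19 * m) (by rw [half_re]; linarith) (by
      have : (1 / 2 + (T : ℂ) * I + u + (2 - u)) = 1 / 2 + T * I + 2 := by ring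
      rw [this, half_re]; norm_num) (fun t ht => by
      have e : (1 / 2 + (T : ℂ) * I + u + t * (2 - u)) = 1 / 2 + T * I + (u + t * (2 - u)) := by ring
      rw [e]
      obtain ⟨p1, p2⟩ := hp t ht u 2 hu (by rw [e2]; norm_num) hnu hn22
      exact hseg _ p1 p2)
  have e3 : (1 / 2 + (T : ℂ) * I + 2 + (u - 2)) = 1 / 2 + T * I + u := by ring
  have e4 : (1 / 2 + (T : ℂ) * I + u + (2 - u)) = 1 / 2 + T * I + 2 := by ring
  rw [e3, sub_re, e2] at h1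
  rw [e4, sub_re, e2, norm_sub_rev] at h2
  have hKv : (6 * m * (2 + x) + 19 * m) * ‖u - 2‖ ≤ 90 * m * (1 + x ^ 2) :=
    le_trans (by gcongr) hK
  rw [← hℓ, hGT, hgu, ← hx]
  constructor
  · calc ‖gaf N μ (1 / 2 + T * I + 2)‖ * Real.exp (-(2 * ℓ)) *
          Real.exp (ℓ * u.re - 90 * m * (1 + x ^ 2))
        ≤ ‖gaf N μ (1 / 2 + T * I + u)‖ *
          Real.exp (ℓ * (2 - u.re) + (6 * m * (2 + x) + 19 * m) * ‖u - 2‖) * Real.exp (-(2 * ℓ)) *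
          Real.exp (ℓ * u.re - 90 * m * (1 + x ^ 2)) := by gcongr
      _ = ‖gaf N μ (1 / 2 + T * I + u)‖ *
          Real.exp ((6 * m * (2 + x) + 19 * m) * ‖u - 2‖ - 90 * m * (1 + x ^ 2)) := by
          rw [mul_assoc, mul_assoc, mul_assoc, ← Real.exp_add, ← Real.exp_add]
          congr 2
          ring
      _ ≤ ‖gaf N μ (1 / 2 + T * I + u)‖ * 1 := by
          gcongr
          rw [Real.exp_le_one_iff]
          linarith
      _ = _ := mul_one _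
  · calc ‖gaf N μ (1 / 2 + T * I + u)‖
        ≤ ‖gaf N μ (1 / 2 + T * I + 2)‖ *
          Real.exp (ℓ * (u.re - 2) + (6 * m * (2 + x) + 19 * m) * ‖u - 2‖) := h1
      _ ≤ ‖gaf N μ (1 / 2 + T * I + 2)‖ * Real.exp (-(2 * ℓ) + (ℓ * u.re + 90 * m * (1 + x ^ 2))) :=
          mul_le_mul_of_nonneg_left (Real.exp_le_exp.2 (by linarith)) (norm_nonneg _)
      _ = _ := by rw [Real.exp_add]; ring

lemma GT_pos (hm : 1 ≤ m) (hN : 1 ≤ N) (hμ : ∀ j, (μ j).re ≤ 1 / 2) (T : ℝ) : 0 < GT N μ T := by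
  have gp := gaf_GP hm hN hμ
  unfold GT gT
  have h := gp.ne (1 / 2 + T * I + 2) (by rw [half_re]; norm_num)
  positivity

lemma cond_eq (hN : 1 ≤ N) (T : ℝ) : Pool.Agent.J4H34.HF.cond N μ T = Real.exp (2 * lT N μ T) := by
  unfold lT
  rw [mul_div_cancel₀ _ two_ne_zero, Real.exp_log (by linarith [cond_ge (μ := μ) hN T])]

lemma lT_nonneg (hN : 1 ≤ N) (T : ℝ) : 0 ≤ lT N μ T := by
  unfold lT
  have := Real.log_nonneg (cond_ge (μ := μ) hN T)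
  linarith

lemma GR_two (z : ℂ) : (Gammaℝ z)⁻¹ = z / (2 * Real.pi) * (Gammaℝ (z + 2))⁻¹ := by
  rcases eq_or_ne z 0 with h | h
  · rw [h]
    have : Gammaℝ 0 = 0 := by
      rw [Complex.Gammaℝ_def]
      simp
    rw [this]; simp
  · rw [Complex.Gammaℝ_add_two h]
    have hpi : (Real.pi : ℂ) ≠ 0 := by exact_mod_cast Real.pi_ne_zero
    rcases eq_or_ne (Gammaℝ z) 0 with h2 | h2
    · rw [h2]; simp
    · field_simp

lemma gaf_inv_two (hN : 1 ≤ N) (s : ℂ) : (gaf N μ s)⁻¹ =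
    (N : ℂ) * (∏ j, ((s - μ j) / (2 * Real.pi))) * (gaf N μ (s + 2))⁻¹ := by
  have hN0 : (N : ℂ) ≠ 0 := by
    have : 0 < N := by linarith
    exact_mod_cast this.ne'
  unfold gaf
  rw [mul_inv, mul_inv, ← Finset.prod_inv_distrib, ← Finset.prod_inv_distrib]
  have e1 : (N : ℂ) ^ ((s + 2) / 2) = (N : ℂ) ^ (s / 2) * N := by
    rw [show (s + 2) / 2 = s / 2 + 1 by ring, cpow_add _ _ hN0, cpow_one]
  have e2 : ∏ j, (Gammaℝ (s - μ j))⁻¹ =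
      (∏ j, ((s - μ j) / (2 * Real.pi))) * ∏ j, (Gammaℝ (s + 2 - μ j))⁻¹ := by
    rw [← Finset.prod_mul_distrib]
    refine Finset.prod_congr rfl fun j _ => ?_
    rw [GR_two (s - μ j)]
    congr 3
    ring
  rw [e1, e2, mul_inv]
  have h3 : (N : ℂ) ^ (s / 2) ≠ 0 := by
    rw [Complex.cpow_ne_zero_iff]
    exact Or.inl hN0
  field_simp

end Pool.Agent.J4H8.LH
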