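import Pool.Agent.J4H8.LH.Gam


/-!
# Project LH: the inverse of the gamma factor near the line
-/

set_option autoImplicit false

open Complex Filter Topology Set
open scoped ComplexConjugate

namespace Pool.Agent.J4H8.LH

open H353.E H353.F
open Pool.Agent.J4H34.HF (DR Xi cond_ge LL LL_bound xi_eq cauchy_dec)
open Pool.Agent.J4H1.LH
open Pool.Agent.W169.HF (UD Pf Slow XX sharpX S_LCX)

variable {m : ℕ} {N : ℝ} {μ : Fin m → ℂ}

lemma prod_le_cond (hN : 1 ≤ N) (T : ℝ) (u : ℂ) :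
    N * ∏ j, ‖(1 / 2 + T * I + u) - μ j‖ ≤ Real.exp (2 * lT N μ T + m * (1 / 2 + ‖u‖)) := by
  rw [Real.exp_add, ← cond_eq hN, Pool.Agent.J4H34.HF.cond, mul_assoc]
  refine mul_le_mul_of_nonneg_left ?_ (by linarith)
  have e : Real.exp (m * (1 / 2 + ‖u‖)) = ∏ _j : Fin m, Real.exp (1 / 2 + ‖u‖) := by
    rw [Finset.prod_const, Finset.card_univ, Fintype.card_fin, ← Real.exp_nat_mul]
  rw [e, ← Finset.prod_mul_distrib]
  refine Finset.prod_le_prod (fun j _ => norm_nonneg _) fun j _ => ?_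
  have h1 : (1 / 2 + (T : ℂ) * I + u) - μ j = ((T : ℂ) * I - μ j) + (1 / 2 + u) := by ring
  rw [h1]
  have h2 : ‖(1 / 2 + u : ℂ)‖ ≤ 1 / 2 + ‖u‖ := by
    refine (norm_add_le _ _).trans ?_
    norm_num
  have h3 : 1 + (1 / 2 + ‖u‖) ≤ Real.exp (1 / 2 + ‖u‖) := by
    have := Real.add_one_le_exp (1 / 2 + ‖u‖)
    linarith
  calc ‖((T : ℂ) * I - μ j) + (1 / 2 + u)‖ ≤ ‖(T : ℂ) * I - μ j‖ + (1 / 2 + ‖u‖) :=
        (norm_add_le _ _).trans (by linarith)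
    _ ≤ (1 + ‖(T : ℂ) * I - μ j‖) * (1 + (1 / 2 + ‖u‖)) := by
        nlinarith [norm_nonneg ((T : ℂ) * I - μ j), norm_nonneg u]
    _ ≤ _ := by gcongr

/-- the inverse of the gamma factor for `0 ≤ Re u` -/
lemma gT_inv (hm : 1 ≤ m) (hN : 1 ≤ N) (hμ : ∀ j, (μ j).re ≤ 1 / 2) (T : ℝ) {u : ℂ}
    (hu : 0 ≤ u.re) : ‖(gT N μ T u)⁻¹‖ ≤
      (GT N μ T)⁻¹ * Real.exp (-(lT N μ T * u.re) + 1000 * m * (1 + ‖u‖ ^ 2)) := by
  have hm' : (1 : ℝ) ≤ m := by exact_mod_cast hm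
  have hN0 : 0 < N := by linarith
  have hGT := GT_pos hm hN hμ T
  have h1 := (gT_cmp hm hN hμ T (u := u + 2) (by simp; linarith)).1
  have e1 : (gT N μ T u)⁻¹ = (N : ℂ) * (∏ j, (((1 / 2 + T * I + u) - μ j) / (2 * Real.pi))) *
      (gT N μ T (u + 2))⁻¹ := by
    unfold gT
    rw [gaf_inv_two hN]
    congr 3
    ring
  rw [e1, norm_mul, norm_mul, norm_inv, norm_prod, Complex.norm_real, Real.norm_of_nonneg hN0.le]
  have h2 : ∏ j, ‖((1 / 2 + T * I + u) - μ j) / (2 * Real.pi)‖ ≤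
      ∏ j, ‖(1 / 2 + T * I + u) - μ j‖ := by
    refine Finset.prod_le_prod (fun j _ => norm_nonneg _) fun j _ => ?_
    rw [norm_div]
    refine div_le_self (norm_nonneg _) ?_
    rw [norm_mul, Complex.norm_real, Real.norm_of_nonneg Real.pi_pos.le]
    have := Real.pi_gt_three
    norm_num
    linarith
  have h3 := prod_le_cond (μ := μ) hN T u
  have h4 : ‖u + 2‖ ^ 2 ≤ 2 * ‖u‖ ^ 2 + 8 := by
    have h5 : ‖u + 2‖ ≤ ‖u‖ + 2 := (norm_add_le _ _).trans (by norm_num)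
    have h6 := norm_nonneg (u + 2)
    nlinarith [sq_nonneg (‖u‖ - 2)]
  have h5 : (GT N μ T * Real.exp (lT N μ T * (u.re + 2) - 90 * m * (9 + 2 * ‖u‖ ^ 2))) ≤
      ‖gT N μ T (u + 2)‖ := by
    refine le_trans ?_ h1
    have e : (u + 2 : ℂ).re = u.re + 2 := by simp
    rw [e]
    have h6 : 90 * m * (1 + ‖u + 2‖ ^ 2) ≤ 90 * m * (9 + 2 * ‖u‖ ^ 2) :=
      mul_le_mul_of_nonneg_left (by linarith) (by positivity)
    exact mul_le_mul_of_nonneg_left (Real.exp_le_exp.2 (by linarith)) hGT.le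
  have h6 : ‖gT N μ T (u + 2)‖⁻¹ ≤
      (GT N μ T)⁻¹ * Real.exp (-(lT N μ T * (u.re + 2) - 90 * m * (9 + 2 * ‖u‖ ^ 2))) := by
    rw [Real.exp_neg, ← mul_inv]
    exact inv_anti₀ (by positivity) h5
  calc N * (∏ j, ‖((1 / 2 + T * I + u) - μ j) / (2 * Real.pi)‖) * ‖gT N μ T (u + 2)‖⁻¹
      ≤ N * (∏ j, ‖(1 / 2 + T * I + u) - μ j‖) *
        ((GT N μ T)⁻¹ * Real.exp (-(lT N μ T * (u.re + 2) - 90 * m * (9 + 2 * ‖u‖ ^ 2)))) := by
        gcongr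
    _ ≤ Real.exp (2 * lT N μ T + m * (1 / 2 + ‖u‖)) *
        ((GT N μ T)⁻¹ * Real.exp (-(lT N μ T * (u.re + 2) - 90 * m * (9 + 2 * ‖u‖ ^ 2)))) := by
        gcongr
    _ = (GT N μ T)⁻¹ * Real.exp ((2 * lT N μ T + m * (1 / 2 + ‖u‖)) +
        -(lT N μ T * (u.re + 2) - 90 * m * (9 + 2 * ‖u‖ ^ 2))) := by
        rw [Real.exp_add (2 * lT N μ T + m * (1 / 2 + ‖u‖))]; ring
    _ ≤ _ := by
        refine mul_le_mul_of_nonneg_left (Real.exp_le_exp.2 ?_) (by positivity)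
        have h7 := sq_le ‖u‖
        have h8 : m * ((1 / 2 + ‖u‖) + 90 * (9 + 2 * ‖u‖ ^ 2)) ≤ m * (1000 * (1 + ‖u‖ ^ 2)) := by
          gcongr
          nlinarith
        linarith

/-- the gamma factor for `ρ ≤ Re u` -/
lemma gT_up (hm : 1 ≤ m) (hN : 1 ≤ N) (hμ : ∀ j, (μ j).re ≤ 1 / 2) (T : ℝ) {ρ : ℝ} (hρ : 0 < ρ)
    {u : ℂ} (hu : ρ ≤ u.re) : gT N μ T u ≠ 0 ∧ ‖gT N μ T u‖ ≤
      GT N μ T * Real.exp (lT N μ T * u.re + (1000 * m + 2 * m / ρ) * (1 + ‖u‖ ^ 2)) := by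
  have hm' : (1 : ℝ) ≤ m := by exact_mod_cast hm
  have hN0 : 0 < N := by linarith
  have hNc : (N : ℂ) ≠ 0 := by exact_mod_cast hN0.ne'
  have hGT := GT_pos hm hN hμ T
  have hre : ∀ j, ρ ≤ ((1 / 2 + (T : ℂ) * I + u) - μ j).re := fun j => by
    rw [sub_re, half_re]
    linarith [hμ j]
  have hnj : ∀ j, ρ ≤ ‖(1 / 2 + (T : ℂ) * I + u) - μ j‖ := fun j => (hre j).trans (re_le_norm _)
  have hne : gT N μ T u ≠ 0 := by
    unfold gT gaf
    refine mul_ne_zero ?_ (Finset.prod_ne_zero_iff.2 fun j _ => ?_)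
    · rw [Complex.cpow_ne_zero_iff]
      exact Or.inl hNc
    · exact Complex.Gammaℝ_ne_zero_of_re_pos (by linarith [hre j])
  refine ⟨hne, ?_⟩
  have h1 := (gT_cmp hm hN hμ T (u := u + 2) (by simp; linarith)).2
  have e1 : (gT N μ T u)⁻¹ = (N : ℂ) * (∏ j, (((1 / 2 + T * I + u) - μ j) / (2 * Real.pi))) *
      (gT N μ T (u + 2))⁻¹ := by
    unfold gT
    rw [gaf_inv_two hN]
    congr 3
    ring
  have hP : 0 < ∏ j, ‖((1 / 2 + T * I + u) - μ j) / (2 * Real.pi)‖ := by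
    refine Finset.prod_pos fun j _ => ?_
    rw [norm_div]
    have := hnj j
    have h2 : 0 < ‖(2 * Real.pi : ℂ)‖ := by
      rw [norm_mul, Complex.norm_real, Real.norm_of_nonneg Real.pi_pos.le]
      refine mul_pos (by norm_num) Real.pi_pos
    have h3 : 0 < ‖(1 / 2 + (T : ℂ) * I + u) - μ j‖ := by linarith
    exact div_pos h3 h2
  have e2 : ‖gT N μ T u‖ = ‖gT N μ T (u + 2)‖ *
      (N * ∏ j, ‖((1 / 2 + T * I + u) - μ j) / (2 * Real.pi)‖)⁻¹ := by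
    have h2 := congrArg norm e1
    rw [norm_mul, norm_mul, norm_inv, norm_inv, norm_prod, Complex.norm_real,
      Real.norm_of_nonneg hN0.le] at h2
    rw [← inv_inj, h2, mul_inv, inv_inv]
    ring
  -- the lower bound for the product
  have h3 : Real.exp (2 * lT N μ T) ≤ (N * ∏ j, ‖((1 / 2 + T * I + u) - μ j) / (2 * Real.pi)‖) *
      Real.exp (m * (2 + (3 / 2 + ‖u‖) / ρ)) := by
    rw [← cond_eq hN, Pool.Agent.J4H34.HF.cond, mul_assoc]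
    refine mul_le_mul_of_nonneg_left ?_ (by linarith)
    have e : Real.exp (m * (2 + (3 / 2 + ‖u‖) / ρ)) =
        ∏ _j : Fin m, Real.exp (2 + (3 / 2 + ‖u‖) / ρ) := by
      rw [Finset.prod_const, Finset.card_univ, Fintype.card_fin, ← Real.exp_nat_mul]
    rw [e, ← Finset.prod_mul_distrib]
    refine Finset.prod_le_prod (fun j _ => by positivity) fun j _ => ?_
    obtain ⟨a, ha⟩ : ∃ a : ℝ, a = ‖(1 / 2 + (T : ℂ) * I + u) - μ j‖ := ⟨_, rfl⟩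
    obtain ⟨q, hq⟩ : ∃ q : ℝ, q = 3 / 2 + ‖u‖ := ⟨_, rfl⟩
    have hq0 : 0 ≤ q := by rw [hq]; positivity
    have haρ : ρ ≤ a := by rw [ha]; exact hnj j
    have ha0 : 0 < a := by linarith
    have h4 : 1 + ‖(T : ℂ) * I - μ j‖ ≤ a + q := by
      have h5 : (T : ℂ) * I - μ j = ((1 / 2 + (T : ℂ) * I + u) - μ j) - (1 / 2 + u) := by ring
      have h6 : ‖(1 / 2 + u : ℂ)‖ ≤ 1 / 2 + ‖u‖ := by
        refine (norm_add_le _ _).trans ?_
        norm_num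
      rw [h5]
      have h7 := norm_sub_le ((1 / 2 + (T : ℂ) * I + u) - μ j) (1 / 2 + u)
      rw [← ha] at h7
      rw [hq]
      linarith
    have h5 : a + q ≤ a * (1 + q / ρ) := by
      have : q ≤ a * (q / ρ) := by
        rw [mul_div_assoc', le_div_iff₀ hρ]
        nlinarith
      linarith
    have h6 : 1 + q / ρ ≤ Real.exp (q / ρ) := by
      have := Real.add_one_le_exp (q / ρ)
      linarith
    have h7 : (2 * Real.pi) ≤ Real.exp 2 := by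
      have h8 : Real.exp 2 = Real.exp 1 * Real.exp 1 := by rw [← Real.exp_add]; norm_num
      rw [h8]
      have h9 := Real.exp_one_gt_d9
      have h10 := Real.pi_lt_d2
      nlinarith
    have h8 : ‖(2 * Real.pi : ℂ)‖ = 2 * Real.pi := by
      rw [norm_mul, Complex.norm_real, Real.norm_of_nonneg Real.pi_pos.le]
      norm_num
    rw [norm_div, ← ha, h8, Real.exp_add, ← hq]
    have hpi := Real.pi_pos
    calc 1 + ‖(T : ℂ) * I - μ j‖ ≤ a * (1 + q / ρ) := h4.trans h5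
      _ ≤ a * Real.exp (q / ρ) := by gcongr
      _ = a / (2 * Real.pi) * ((2 * Real.pi) * Real.exp (q / ρ)) := by field_simp
      _ ≤ a / (2 * Real.pi) * (Real.exp 2 * Real.exp (q / ρ)) := by gcongr
  have hNP : 0 < N * ∏ j, ‖((1 / 2 + T * I + u) - μ j) / (2 * Real.pi)‖ := mul_pos hN0 hP
  have h4 : (N * ∏ j, ‖((1 / 2 + T * I + u) - μ j) / (2 * Real.pi)‖)⁻¹ ≤
      Real.exp (m * (2 + (3 / 2 + ‖u‖) / ρ) - 2 * lT N μ T) := by
    rw [inv_le_iff_one_le_mul₀ hNP, Real.exp_sub, div_mul_eq_mul_div, le_div_iff₀ (Real.exp_pos _),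
      one_mul, mul_comm (Real.exp _)]
    exact h3
  have h5 : ‖u + 2‖ ^ 2 ≤ 2 * ‖u‖ ^ 2 + 8 := by
    have h5 : ‖u + 2‖ ≤ ‖u‖ + 2 := (norm_add_le _ _).trans (by norm_num)
    have h6 := norm_nonneg (u + 2)
    nlinarith [sq_nonneg (‖u‖ - 2)]
  have e : (u + 2 : ℂ).re = u.re + 2 := by simp
  rw [e] at h1
  rw [e2]
  calc ‖gT N μ T (u + 2)‖ * (N * ∏ j, ‖((1 / 2 + T * I + u) - μ j) / (2 * Real.pi)‖)⁻¹
      ≤ (GT N μ T * Real.exp (lT N μ T * (u.re + 2) + 90 * m * (1 + ‖u + 2‖ ^ 2))) *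
        Real.exp (m * (2 + (3 / 2 + ‖u‖) / ρ) - 2 * lT N μ T) := by gcongr
    _ = GT N μ T * Real.exp ((lT N μ T * (u.re + 2) + 90 * m * (1 + ‖u + 2‖ ^ 2)) +
        (m * (2 + (3 / 2 + ‖u‖) / ρ) - 2 * lT N μ T)) := by
        rw [Real.exp_add (lT N μ T * (u.re + 2) + 90 * m * (1 + ‖u + 2‖ ^ 2))]; ring
    _ ≤ _ := by
        refine mul_le_mul_of_nonneg_left (Real.exp_le_exp.2 ?_) hGT.le
        have h7 := sq_le ‖u‖
        have h8 : (3 / 2 + ‖u‖) / ρ ≤ 2 / ρ * (1 + ‖u‖ ^ 2) := by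
          rw [div_mul_eq_mul_div]
          gcongr
          nlinarith
        have h9 : m * (2 + (3 / 2 + ‖u‖) / ρ) ≤ m * (2 + 2 / ρ * (1 + ‖u‖ ^ 2)) := by gcongr
        have h10 : 90 * m * (1 + ‖u + 2‖ ^ 2) + m * 2 ≤ 1000 * m * (1 + ‖u‖ ^ 2) := by
          have : m * (90 * (1 + ‖u + 2‖ ^ 2) + 2) ≤ m * (1000 * (1 + ‖u‖ ^ 2)) := by
            gcongr
            nlinarith [sq_nonneg ‖u‖]
          linarith
        have e3 : (1000 * m + 2 * m / ρ) * (1 + ‖u‖ ^ 2) =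
            1000 * m * (1 + ‖u‖ ^ 2) + m * (2 / ρ * (1 + ‖u‖ ^ 2)) := by ring
        rw [e3]
        linarith

end Pool.Agent.J4H8.LH
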